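import Pool.Agent.R165.Cof.H
import Pool.Agent.H554.Pub

/-!
# A reaping family which is smaller than the groupwise density number

If `B` is a reaping family of infinite sets of natural numbers indexed by `R` and every `R`-indexed
system of groupwise dense families has a common element, then `𝔟 ≤ |R| < 𝔤`.
-/

set_option autoImplicit false

namespace Pool.Agent.D0H62.UG

open Set Filter Cardinal
open Pool.Agent.R165.Cof Pool.Agent.H554

/-- `𝔟 ≤ 𝔯`: a reaping family has at least `𝔟` elements. -/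
theorem bnum_le {R : Type} (B : R → Set ℕ) (hB : ∀ i, (B i).Infinite) (h2 : Phi2 R B) :
    bnum ≤ #R := by
  classical
  by_contra hcon
  rw [not_le] at hcon
  have hnext : ∀ i n, ∃ m ∈ B i, n < m := fun i n => (hB i).exists_gt n
  choose f hf1 hf2 using hnext
  obtain ⟨g, hg⟩ := bounded_of_lt hcon f
  let a : ℕ → ℕ := fun k => Nat.rec 0 (fun _ x => max (x + 1) (g x + 1)) k
  have ha : ∀ k, a (k + 1) = max (a k + 1) (g (a k) + 1) := fun k => rfl
  have hmono : StrictMono a := strictMono_nat_of_lt_succ fun k => by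
    rw [ha]
    exact lt_of_lt_of_le (Nat.lt_succ_self _) (le_max_left _ _)
  have hmeet : ∀ i, ∀ᶠ k in atTop, ∃ m ∈ B i, a k < m ∧ m < a (k + 1) := by
    intro i
    have h1 := hmono.tendsto_atTop.eventually (hg i)
    filter_upwards [h1] with k hk
    refine ⟨f i (a k), hf1 _ _, hf2 _ _, ?_⟩
    rw [ha]
    exact lt_of_lt_of_le (Nat.lt_succ_of_le hk) (le_max_right _ _)
  let A : Set ℕ := {n | ∃ k, Even k ∧ a k ≤ n ∧ n < a (k + 1)}
  obtain ⟨i, v, hv⟩ := h2 A
  obtain ⟨k0, hk0⟩ := eventually_atTop.1 (hmeet i)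
  obtain ⟨m, hm, hm1, hm2⟩ := hk0 (2 * k0) (by omega)
  obtain ⟨m', hm', hm1', hm2'⟩ := hk0 (2 * k0 + 1) (by omega)
  have h3 : m ∈ A := ⟨2 * k0, ⟨k0, by ring⟩, hm1.le, hm2⟩
  have h4 : m' ∉ A := by
    rintro ⟨k, ⟨l, hl⟩, h5, h6⟩
    have h7 : k < 2 * k0 + 1 + 1 := by
      by_contra h
      push Not at h
      have := hmono.monotone h
      omega
    have h8 : 2 * k0 + 1 < k + 1 := by
      by_contra h
      push Not at h
      have := hmono.monotone h
      omega
    omega
  have h5 := (hv m hm).1 h3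
  exact h4 ((hv m' hm').2 h5)

/-- The groupwise dense families of the two formalizations. -/
theorem gwDense_of {G : Set (Set ℕ)} (hG : GroupwiseDense G) : GwDense G := by
  obtain ⟨h1, h2, h3⟩ := hG
  refine ⟨fun C C' hC hC' hsub => ?_, fun H hH => ?_⟩
  · refine h2 C hC C' ?_ ?_
    · intro hfin
      obtain ⟨b, hb⟩ := hfin.bddAbove
      obtain ⟨n, hn, hn'⟩ := hC' (b + 1)
      have := hb hn'
      omega
    · obtain ⟨N, hN⟩ := hsub
      refine (Set.finite_Iio N).subset ?_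
      rintro n ⟨hn, hn'⟩
      by_contra h
      exact hn' (hN n (not_lt.1 h) hn)
  · have hinf : ∀ n, ∃ m, n < m ∧ m ∈ H := by
      intro n
      obtain ⟨m, hm, hm'⟩ := hH (n + 1)
      exact ⟨m, by omega, hm'⟩
    choose f hf1 hf2 using hinf
    let a : ℕ → ℕ := fun k => Nat.rec 0 (fun _ x => f x) k
    have ha : ∀ k, a (k + 1) = f (a k) := fun k => rfl
    have hmono : StrictMono a := strictMono_nat_of_lt_succ fun k => by
      rw [ha]
      exact hf1 _
    have haH : ∀ k, 0 < k → a k ∈ H := by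
      intro k hk
      obtain ⟨j, rfl⟩ := Nat.exists_eq_succ_of_ne_zero hk.ne'
      show a (j + 1) ∈ H
      rw [ha]
      exact hf2 _
    obtain ⟨M, hM, hMG⟩ := h3 a hmono rfl
    refine ⟨_, hMG, fun N => ?_⟩
    obtain ⟨m, hm, hmN⟩ := hM.exists_gt N
    refine ⟨a m, a (m + 1), hmN.le.trans (hmono.id_le m), hmono (Nat.lt_succ_self m),
      haH m (by omega), haH (m + 1) (by omega), fun k hk1 hk2 => ?_⟩
    exact mem_iUnion₂.2 ⟨m, hm, hk1, hk2⟩

/-- For every infinite `Z` the sets which do not almost contain `Z` are a groupwise dense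
family. -/
theorem groupwiseDense_not {Z : Set ℕ} (hZ : Z.Infinite) :
    GroupwiseDense {C | C.Infinite ∧ (Z \ C).Infinite} := by
  refine ⟨fun C hC => hC.1, fun C hC Y hY hYC => ⟨hY, fun hfin => ?_⟩, fun a ha ha0 => ?_⟩
  · apply hC.2
    refine (hfin.union hYC).subset ?_
    rintro x ⟨hx, hx'⟩
    by_cases hxY : x ∈ Y
    · exact Or.inr ⟨hxY, hx'⟩
    · exact Or.inl ⟨hx, hxY⟩
  · have key : ∀ M : Set ℕ, M.Infinite → (⋃ m ∈ M, Ico (a m) (a (m + 1))).Infinite := by
      intro M hM hfin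
      apply hM
      refine Set.Finite.of_finite_image (hfin.subset ?_) ha.injective.injOn (f := a)
      rintro _ ⟨m, hm, rfl⟩
      exact mem_iUnion₂.2 ⟨m, hm, le_rfl, ha (Nat.lt_succ_self m)⟩
    have hE : {m : ℕ | Even m}.Infinite := by
      apply Set.infinite_of_not_bddAbove
      rintro ⟨b, hb⟩
      have := hb (show 2 * (b + 1) ∈ {m : ℕ | Even m} from ⟨b + 1, by ring⟩)
      omega
    have hO : {m : ℕ | ¬ Even m}.Infinite := by
      apply Set.infinite_of_not_bddAbove
      rintro ⟨b, hb⟩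
      have := hb (show 2 * b + 1 ∈ {m : ℕ | ¬ Even m} from by
        show ¬ Even (2 * b + 1)
        rw [Nat.not_even_iff_odd]
        exact ⟨b, rfl⟩)
      omega
    by_cases h : (Z \ ⋃ m ∈ {m : ℕ | Even m}, Ico (a m) (a (m + 1))).Infinite
    · exact ⟨_, hE, key _ hE, h⟩
    · refine ⟨_, hO, key _ hO, fun hfin => hZ ?_⟩
      rw [not_infinite] at h
      refine (h.union hfin).subset fun x hx => ?_
      by_cases h1 : x ∈ ⋃ m ∈ {m : ℕ | Even m}, Ico (a m) (a (m + 1))
      · refine Or.inr ⟨hx, fun h2 => ?_⟩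
        obtain ⟨m, hm, hm1, hm2⟩ := mem_iUnion₂.1 h1
        obtain ⟨m', hm', hm1', hm2'⟩ := mem_iUnion₂.1 h2
        have h3 : m < m' + 1 := ha.lt_iff_lt.1 (lt_of_le_of_lt hm1 hm2')
        have h4 : m' < m + 1 := ha.lt_iff_lt.1 (lt_of_le_of_lt hm1' hm2)
        have h5 : m = m' := by omega
        subst h5
        exact hm' hm
      · exact Or.inl ⟨hx, h1⟩

/-- If every `R`-indexed system of groupwise dense families has a common element then
`|R| < 𝔤`. -/
theorem lt_gnum {R : Type} [Nonempty R] (h3 : Phi3 R) : #R < gnum := by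
  by_contra hcon
  rw [not_lt] at hcon
  have hne : {κ : Cardinal.{0} | ∃ U : Set (Set (Set ℕ)), #U = κ ∧
      (∀ G ∈ U, GroupwiseDense G) ∧ ¬ ∃ Z, ∀ G ∈ U, Z ∈ G}.Nonempty := by
    refine ⟨_, {G | GroupwiseDense G}, rfl, fun G hG => hG, ?_⟩
    rintro ⟨Z, hZ⟩
    have h1 := hZ _ (groupwiseDense_not (Set.infinite_univ (α := ℕ)))
    have h2 := hZ _ (groupwiseDense_not h1.1)
    apply h2.2
    rw [Set.sdiff_self]
    exact Set.finite_empty
  obtain ⟨U, hU, hU1, hU2⟩ := csInf_mem hne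
  change #U = gnum at hU
  have hUne : Nonempty U := by
    by_contra h
    apply hU2
    refine ⟨∅, fun G hG => ?_⟩
    exact absurd ⟨⟨G, hG⟩⟩ h
  have hle : #U ≤ #R := hU.trans_le hcon
  obtain ⟨e⟩ := hle
  let s : R → U := Function.invFun e
  have hs : Function.Surjective s := Function.invFun_surjective e.injective
  obtain ⟨C, _, hC⟩ := h3 (fun i => (s i).1) fun i => gwDense_of (hU1 _ (s i).2)
  apply hU2
  refine ⟨C, fun G hG => ?_⟩
  obtain ⟨i, hi⟩ := hs ⟨G, hG⟩
  have := hC i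
  rwa [hi] at this

theorem bnum_lt_gnum {R : Type} (B : R → Set ℕ) (hB : ∀ i, (B i).Infinite) (h2 : Phi2 R B)
    (h3 : Phi3 R) : bnum < gnum := by
  have : Nonempty R := by
    obtain ⟨i, _⟩ := h2 ∅
    exact ⟨i⟩
  exact (bnum_le B hB h2).trans_lt (lt_gnum h3)

end Pool.Agent.D0H62.UG
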